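import Pool.Agent.H161.RP.Cert
import Pool.Agent.H161.RP.Data

/-!
# A triangulation of the real projective 6-space with at most 37 vertices

There is a centrally symmetric simplicial 7-polytope with at most 74 vertices in which no vertex is
adjacent to both of two antipodal vertices; the antipodal quotient of its boundary is a simplicial
complex on 37 vertices triangulating `RP^6`.

Proof: 37 explicit integer points `x_i` of `ℝ^7` (found by numerical optimization). For every pair
`i < j` there is a sign `s` and a point of the line through `x_i` and `s x_j` that is a combination
of the points with total weight less than one, so that `x_i` and `s x_j` are not on a common face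
of the convex hull of the points `± x_k`. A small generic perturbation makes the hull simplicial
and keeps this. The signed barycentric coordinates on the boundary of the hull give the
homeomorphism of the quotient with `RP^6`.
-/

set_option autoImplicit false
set_option maxRecDepth 100000

namespace Pool.Agent.Results.MP_b4345b_gt.FewVertices

open Pool.Agent.H161.RP

/-- abstract simplicial complex with vertices among `0, ..., n - 1`: closed under subsets -/
def IsComplex {n : ℕ} (K : Finset (Finset (Fin n))) : Prop := ∀ σ ∈ K, ∀ τ, τ ⊆ σ → τ ∈ K

theorem chk : chkAll 7 D.pts D.certs = true := by decide +kernel

theorem chkS : chkSpan 7 D.pts D.den D.spanData = true := by decide +kernel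

/-- there is a simplicial complex with at most 37 vertices whose geometric realization is
homeomorphic to the real projective space of dimension 6 -/
theorem result : ∃ K : Finset (Finset (Fin 37)), IsComplex K ∧
    Nonempty (realization K ≃ₜ RealProj 6) :=
  triangulation chk chkS

end Pool.Agent.Results.MP_b4345b_gt.FewVertices
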